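import Pool.Agent.N261.SR.Main

/-!
# The maximal ball partial sum operator: only separated radii matter

Let `n ≥ 1` and `h > 0` (`h` may be large).

* The estimate of Q1, `‖sup_{R > 0} |S_R f|‖_{L²(ℝⁿ)} ≤ C ‖f‖₂` for all Schwartz functions, is
  equivalent to the estimate on the unit ball for the radii `h, 2h, 3h, …` only,
  `‖sup_k |S_{hk} f|‖_{L²(B(0,1))} ≤ C ‖f‖₂` for all Schwartz functions.
* For every `f ∈ L²(ℝⁿ)` and almost every `x`: `S_R f(x)` converges as `R → ∞` if and only if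
  `S_{hk} f(x)` converges as `k → ∞` through the integers.

Both follow from a local bound for the radial energy: for `f ∈ L²(ℝⁿ)` and almost every `x` the
function `R ↦ S_R f(x)` is in the homogeneous Sobolev space `H¹` of the half line, and the integral
of the square of its seminorm over a ball of radius `ρ` is at most `10 n^(3/2) ρ ‖f‖₂²`.
-/

set_option autoImplicit false

open MeasureTheory Metric Filter Topology FourierTransform
open scoped ENNReal NNReal RealInnerProductSpace SchwartzMap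

namespace Pool.Agent.Results.MP_ee701d_an.SeparatedRadii

/-- Euclidean space -/
abbrev E (n : ℕ) := EuclideanSpace ℝ (Fin n)

/-- the ball partial sum `S_R f(x)` of the function `f` with Fourier transform `G` -/
noncomputable def S {n : ℕ} (G : E n → ℂ) (R : ℝ) (x : E n) : ℂ :=
  ∫ ξ in closedBall (0 : E n) R, Complex.exp (2 * Real.pi * Complex.I * ((⟪x, ξ⟫ : ℝ) : ℂ)) * G ξ

/-- the supremum of `Σ_i |S_{R (i+1)} f(x) - S_{R i} f(x)|² / (R (i+1) - R i)` over all increasing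
finite sequences of radii: the square of the `L²` norm of the derivative of `R ↦ S_R f(x)` -/
noncomputable def radialEnergy {n : ℕ} (G : E n → ℂ) (x : E n) : ℝ≥0∞ :=
  ⨆ (R : ℕ → ℝ) (_ : Monotone R ∧ 0 ≤ R 0) (N : ℕ),
    ∑ i ∈ Finset.range N, ‖S G (R (i + 1)) x - S G (R i) x‖ₑ ^ 2 / ENNReal.ofReal (R (i + 1) - R i)

theorem result {n : ℕ} (hn : 1 ≤ n) {h : ℝ} (hh : 0 < h) :
    -- (1) the maximal operator on Schwartz functions
    ((∃ C : ℝ≥0, ∀ f : 𝓢(E n, ℂ),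
        ∫⁻ x, (⨆ (R : ℝ) (_ : 0 < R), ‖S (𝓕 (f : E n → ℂ)) R x‖ₑ) ^ 2 ≤ C * ∫⁻ x, ‖f x‖ₑ ^ 2) ↔
      (∃ C : ℝ≥0, ∀ f : 𝓢(E n, ℂ),
        ∫⁻ x in closedBall (0 : E n) 1, (⨆ k : ℕ, ‖S (𝓕 (f : E n → ℂ)) (h * k) x‖ₑ) ^ 2 ≤
          C * ∫⁻ x, ‖f x‖ₑ ^ 2)) ∧
    -- (2) convergence, for every square integrable function
    (∀ G : E n → ℂ, MemLp G 2 volume → ∀ᵐ x : E n, ∀ L : ℂ,
      (Tendsto (fun R : ℝ => S G R x) atTop (𝓝 L) ↔
        Tendsto (fun k : ℕ => S G (h * k) x) atTop (𝓝 L))) ∧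
    -- (3) the local bound for the radial energy
    (∀ G : E n → ℂ, MemLp G 2 volume → ∀ (x₀ : E n) (ρ : ℝ), 0 < ρ →
      ∫⁻ x in closedBall x₀ ρ, radialEnergy G x ≤
        ENNReal.ofReal (10 * n * √n * ρ) * ∫⁻ ξ, ‖G ξ‖ₑ ^ 2) := by
  obtain ⟨m, rfl⟩ : ∃ m, n = m + 1 := ⟨n - 1, by omega⟩
  have hS : ∀ (G : E (m + 1) → ℂ) (R : ℝ) (x : E (m + 1)),
      S G R x = Pool.Agent.Helper93.Sph.ps G R x := fun _ _ _ => rfl
  -- Plancherel
  have hP : ∀ f : 𝓢(E (m + 1), ℂ), ∫⁻ x, ‖f x‖ₑ ^ 2 = ∫⁻ x, ‖𝓕 (f : E (m + 1) → ℂ) x‖ₑ ^ 2 := by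
    intro f
    have h1 := SchwartzMap.norm_fourier_toL2_eq f
    rw [SchwartzMap.norm_toLp, SchwartzMap.norm_toLp,
      ENNReal.toReal_eq_toReal_iff' ((𝓕 f).memLp 2 volume).2.ne (f.memLp 2 volume).2.ne] at h1
    have h2 : ∀ g : E (m + 1) → ℂ, ∫⁻ x, ‖g x‖ₑ ^ 2 = eLpNorm g 2 volume ^ 2 := by
      intro g
      have := eLpNorm_nnreal_pow_eq_lintegral (f := g) (μ := volume) (p := 2) two_ne_zero
      simpa using this.symm
    rw [h2, h2, ← h1]
    rfl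
  refine ⟨⟨?_, ?_⟩, ?_, ?_⟩
  · rintro ⟨C, hC⟩
    refine ⟨C, fun f => le_trans ?_ (hC f)⟩
    refine le_trans (lintegral_mono fun x => ?_) (setLIntegral_le_lintegral _ _)
    exact pow_le_pow_left' (Pool.Agent.N261.SR.MA_le_MX hh _ x) 2
  · rintro ⟨C, hC⟩
    refine ⟨2 * C + (20 * (m + 1) * √(m + 1) * h).toNNReal, fun f => ?_⟩
    have hloc : ∀ g : 𝓢(E (m + 1), ℂ),
        ∫⁻ x in closedBall (0 : E (m + 1)) 1,
          Pool.Agent.N261.SR.MX (𝓕 (g : E (m + 1) → ℂ)) x ^ 2 ≤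
        (2 * C + ENNReal.ofReal (20 * (m + 1) * √(m + 1) * h)) *
          ∫⁻ x, ‖𝓕 (g : E (m + 1) → ℂ) x‖ₑ ^ 2 := by
      intro g
      refine Pool.Agent.N261.SR.local_bd hh ((𝓕 g).memLp 2 volume) ?_
      have := hC g
      rw [hP g] at this
      exact this
    rw [hP f]
    have hK : ((2 * C + (20 * (m + 1) * √(m + 1) * h).toNNReal : ℝ≥0) : ℝ≥0∞) =
        2 * C + ENNReal.ofReal (20 * (m + 1) * √(m + 1) * h) := by
      push_cast
      rfl
    rw [hK]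
    refine Pool.Agent.N261.SR.whole_bd fun l => ?_
    have hl : (0 : ℝ) < (l : ℝ) + 1 := by positivity
    refine Pool.Agent.N261.SR.ball_bd hl ?_
    -- the dilated function
    have hl' : ((l : ℝ) + 1)⁻¹ ≠ 0 := by positivity
    obtain ⟨g, hg⟩ : ∃ g : 𝓢(E (m + 1), ℂ), 𝓕 (g : E (m + 1) → ℂ) =
        Pool.Agent.N261.SR.dil ((l : ℝ) + 1) (𝓕 (f : E (m + 1) → ℂ)) := by
      refine ⟨𝓕⁻ (SchwartzMap.compCLMOfContinuousLinearEquiv ℂ
        (ContinuousLinearEquiv.smulLeft (Units.mk0 _ hl')) (𝓕 f)), ?_⟩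
      have h1 : 𝓕 (𝓕⁻ (SchwartzMap.compCLMOfContinuousLinearEquiv ℂ
        (ContinuousLinearEquiv.smulLeft (Units.mk0 _ hl')) (𝓕 f))) =
        (SchwartzMap.compCLMOfContinuousLinearEquiv ℂ
        (ContinuousLinearEquiv.smulLeft (Units.mk0 _ hl')) (𝓕 f)) := by simp
      have h2 := congrArg (fun F : 𝓢(E (m + 1), ℂ) => (F : E (m + 1) → ℂ)) h1
      exact h2
    rw [← hg]
    exact hloc g
  · intro G hG
    filter_upwards [Pool.Agent.Helper93.Sph.energy_fin hG] with x hx L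
    exact Pool.Agent.Helper93.Sph.conv_iff hG hx hh L
  · intro G hG x₀ ρ hρ
    have h1 := Pool.Agent.Helper93.Sph.energy_bound hG x₀ hρ
    push_cast
    refine le_trans (lintegral_mono fun x => ?_) h1
    refine iSup_le fun R => iSup_le fun hR => iSup_le fun N => ?_
    exact Pool.Agent.Helper93.Sph.energy_partition hG x R hR.1 hR.2 N

end Pool.Agent.Results.MP_ee701d_an.SeparatedRadii
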